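import Mathlib
import Pool.Agent.V11299.Cov.Data

set_option autoImplicit false

namespace Pool.Agent.V11299.Cov

/-- the position chosen for the prime `p` -/
def Y (p : ℕ) : ℕ :=
  bif Nat.beq p 2 then 30002
  else Nat.mod (Nat.shiftRight YT (Nat.mul 16 (Nat.div p 2))) 65536

/-- primality test below 60000 -/
def isP (p : ℕ) : Bool :=
  bif Nat.ble 242 p then (Nat.ble p 59999 && Nat.beq (Nat.gcd p PP) 1)
  else Nat.beq (Nat.mod (Nat.shiftRight mask p) 2) 1

/-- test of the position `x` with the witness primes `p`, `q` -/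
def okpq (x p q : ℕ) : Bool :=
  bif Nat.beq p q then
    (isP p && (Nat.ble p 29999 && Nat.beq (Nat.mod x (Nat.mul p p)) (Nat.mod (Y p) (Nat.mul p p))))
  else
    (isP p && (isP q && (Nat.beq (Nat.mod x p) (Nat.mod (Y p) p) &&
      Nat.beq (Nat.mod x q) (Nat.mod (Y q) q))))

def ok (x w : ℕ) : Bool := okpq x (Nat.mod w 65536) (Nat.div w 65536)

def allB (f : ℕ → Bool) (n : ℕ) : Bool := Nat.rec true (fun k ih => f k && ih) n

def chk (b W : ℕ) : Bool :=
  allB (fun k => ok (Nat.add (Nat.mul 600 b) k) (Nat.mod (Nat.shiftRight W (Nat.mul 32 k)) 4294967296)) 600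

end Pool.Agent.V11299.Cov
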