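import Mathlib
import Pool.Agent.V11299.Cov.Chk
import Pool.Agent.V11299.Cov.C0
import Pool.Agent.V11299.Cov.C1
import Pool.Agent.V11299.Cov.C2
import Pool.Agent.V11299.Cov.C3
import Pool.Agent.V11299.Cov.C4
import Pool.Agent.V11299.Cov.C5
import Pool.Agent.V11299.Cov.C6
import Pool.Agent.V11299.Cov.C7
import Pool.Agent.V11299.Cov.C8
import Pool.Agent.V11299.Cov.C9

set_option autoImplicit false
set_option maxRecDepth 100000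

namespace Pool.Agent.V11299.Cov

lemma allB_sound {f : ℕ → Bool} {n : ℕ} (h : allB f n = true) : ∀ k < n, f k = true := by
  induction n with
  | zero => intro k hk; omega
  | succ n ih =>
    have h1 : (f n && allB f n) = true := h
    rw [Bool.and_eq_true] at h1
    intro k hk
    rcases Nat.lt_or_ge k n with h2 | h2
    · exact ih h1.2 k h2
    · have : k = n := by omega
      subst this
      exact h1.1

lemma small_prime : ∀ p < 242, Nat.mod (Nat.shiftRight mask p) 2 = 1 → p.Prime := by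
  intro p hp h
  unfold mask at h
  interval_cases p <;> first | (norm_num; done) | (exfalso; revert h; decide)

lemma dvd_PP : ∀ q < 245, q.Prime → q ∣ PP := by
  intro q hq h
  unfold PP
  interval_cases q <;> first | decide | (exfalso; revert h; norm_num; done)

lemma isP_sound {p : ℕ} (h : isP p = true) : p.Prime ∧ p < 60000 := by
  unfold isP at h
  rcases Nat.lt_or_ge p 242 with h1 | h1
  · have h2 : Nat.ble 242 p = false := by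
      rw [Bool.eq_false_iff]
      intro h3
      have := Nat.le_of_ble_eq_true h3
      omega
    rw [h2] at h
    simp only [cond_false] at h
    have h3 := Nat.eq_of_beq_eq_true h
    exact ⟨small_prime p h1 h3, by omega⟩
  · have h2 : Nat.ble 242 p = true := Nat.ble_eq_true_of_le h1
    rw [h2] at h
    simp only [cond_true, Bool.and_eq_true] at h
    obtain ⟨h3, h4⟩ := h
    have h3' := Nat.le_of_ble_eq_true h3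
    have h4' : Nat.gcd p PP = 1 := Nat.eq_of_beq_eq_true h4
    refine ⟨?_, by omega⟩
    by_contra hnp
    have hq := Nat.minFac_prime (n := p) (by omega)
    have hqd := Nat.minFac_dvd p
    have hsq : (Nat.minFac p) ^ 2 ≤ p := Nat.minFac_sq_le_self (by omega) hnp
    have hlt : Nat.minFac p < 245 := by
      by_contra hcon
      push Not at hcon
      have h8 : 245 ^ 2 ≤ (Nat.minFac p) ^ 2 := Nat.pow_le_pow_left hcon 2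
      omega
    have h5 := Nat.dvd_gcd hqd (dvd_PP _ hlt hq)
    rw [h4'] at h5
    exact hq.one_lt.ne' (Nat.dvd_one.mp h5)

/-- coverage of `x + 1 + m` -/
def Cvd (m x : ℕ) : Prop :=
  (∃ p q : ℕ, p.Prime ∧ q.Prime ∧ p ≠ q ∧ p < 60000 ∧ q < 60000 ∧ p * q ∣ m + (x + 1)) ∨
    (∃ p : ℕ, p.Prime ∧ 2 * p < 60000 ∧ p ^ 2 ∣ m + (x + 1))

lemma dvd_of_mod {m x y d : ℕ} (h1 : d ∣ m + (y + 1)) (h2 : Nat.mod x d = Nat.mod y d) :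
    d ∣ m + (x + 1) := by
  have h3 : x ≡ y [MOD d] := h2
  have h4 : m + (x + 1) ≡ m + (y + 1) [MOD d] := (h3.add_right 1).add_left m
  exact (h4.dvd_iff dvd_rfl).mpr h1

lemma ok_sound {m x w : ℕ} (hm : ∀ p : ℕ, p.Prime → p < 60000 → p ^ 2 ∣ m + (Y p + 1))
    (h : ok x w = true) : Cvd m x := by
  unfold ok okpq at h
  obtain ⟨p, hp⟩ : ∃ p, p = Nat.mod w 65536 := ⟨_, rfl⟩
  obtain ⟨q, hq⟩ : ∃ q, q = Nat.div w 65536 := ⟨_, rfl⟩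
  rw [← hp, ← hq] at h
  by_cases hpq : p = q
  · have h1 : Nat.beq p q = true := by rw [hpq]; exact Nat.beq_refl q
    rw [h1] at h
    simp only [cond_true, Bool.and_eq_true] at h
    obtain ⟨h2, h3, h4⟩ := h
    have h3' := Nat.le_of_ble_eq_true h3
    have h4' := Nat.eq_of_beq_eq_true h4
    obtain ⟨hpp, hplt⟩ := isP_sound h2
    right
    refine ⟨p, hpp, by omega, ?_⟩
    have h5 := hm p hpp hplt
    have h6 : p ^ 2 = Nat.mul p p := sq p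
    rw [h6] at h5 ⊢
    exact dvd_of_mod h5 h4'
  · have h1 : Nat.beq p q = false := by
      rw [Bool.eq_false_iff]
      intro h3
      exact hpq (Nat.eq_of_beq_eq_true h3)
    rw [h1] at h
    simp only [cond_false, Bool.and_eq_true] at h
    obtain ⟨h2, h3, h4, h5⟩ := h
    have h4' := Nat.eq_of_beq_eq_true h4
    have h5' := Nat.eq_of_beq_eq_true h5
    obtain ⟨hpp, hplt⟩ := isP_sound h2
    obtain ⟨hqp, hqlt⟩ := isP_sound h3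
    left
    refine ⟨p, q, hpp, hqp, hpq, hplt, hqlt, ?_⟩
    have h6 : p ∣ m + (Y p + 1) := (dvd_pow_self p (by norm_num)).trans (hm p hpp hplt)
    have h7 : q ∣ m + (Y q + 1) := (dvd_pow_self q (by norm_num)).trans (hm q hqp hqlt)
    exact ((Nat.coprime_primes hpp hqp).mpr hpq).mul_dvd_of_dvd_of_dvd
      (dvd_of_mod h6 h4') (dvd_of_mod h7 h5')

lemma crt : ∃ m : ℕ, ∀ p : ℕ, p.Prime → p < 60000 → p ^ 2 ∣ m + (Y p + 1) := by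
  obtain ⟨k, hk⟩ := Nat.chineseRemainderOfFinset
    (fun p : ℕ => (p ^ 2 - 1) * (Y p + 1)) (fun p : ℕ => p ^ 2)
    ((Finset.range 60000).filter Nat.Prime)
    (by
      intro p hp
      rw [Finset.mem_filter] at hp
      exact pow_ne_zero 2 hp.2.ne_zero)
    (by
      intro p hp q hq hpq
      rw [Finset.mem_coe, Finset.mem_filter] at hp hq
      exact Nat.Coprime.pow 2 2 ((Nat.coprime_primes hp.2 hq.2).mpr hpq))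
  refine ⟨k, fun p hp hlt => ?_⟩
  have h1 := hk p (by rw [Finset.mem_filter, Finset.mem_range]; exact ⟨hlt, hp⟩)
  have h2 : k + (Y p + 1) ≡ (p ^ 2 - 1) * (Y p + 1) + (Y p + 1) [MOD p ^ 2] := h1.add_right _
  refine (h2.dvd_iff dvd_rfl).mpr ?_
  have h3 : 1 ≤ p ^ 2 := Nat.one_le_pow _ _ hp.pos
  have h4 : (p ^ 2 - 1) * (Y p + 1) + (Y p + 1) = p ^ 2 * (Y p + 1) := by
    obtain ⟨t, ht⟩ : ∃ t, p ^ 2 = t + 1 := ⟨p ^ 2 - 1, by omega⟩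
    rw [ht, Nat.add_sub_cancel]
    ring
  rw [h4]
  exact dvd_mul_right _ _

lemma all_chk : ∀ b < 100, ∃ W, chk b W = true := by
  intro b hb
  interval_cases b
  exacts [⟨_, c0⟩, ⟨_, c1⟩, ⟨_, c2⟩, ⟨_, c3⟩, ⟨_, c4⟩, ⟨_, c5⟩, ⟨_, c6⟩, ⟨_, c7⟩, ⟨_, c8⟩, ⟨_, c9⟩, ⟨_, c10⟩, ⟨_, c11⟩, ⟨_, c12⟩, ⟨_, c13⟩, ⟨_, c14⟩, ⟨_, c15⟩, ⟨_, c16⟩, ⟨_, c17⟩, ⟨_, c18⟩, ⟨_, c19⟩, ⟨_, c20⟩, ⟨_, c21⟩, ⟨_, c22⟩, ⟨_, c23⟩, ⟨_, c24⟩, ⟨_, c25⟩, ⟨_, c26⟩, ⟨_, c27⟩, ⟨_, c28⟩, ⟨_, c29⟩, ⟨_, c30⟩, ⟨_, c31⟩, ⟨_, c32⟩, ⟨_, c33⟩, ⟨_, c34⟩, ⟨_, c35⟩, ⟨_, c36⟩, ⟨_, c37⟩, ⟨_, c38⟩, ⟨_, c39⟩, ⟨_, c40⟩, ⟨_, c41⟩, ⟨_, c42⟩, ⟨_, c43⟩, ⟨_, c44⟩, ⟨_, c45⟩, ⟨_, c46⟩, ⟨_, c47⟩, ⟨_, c48⟩, ⟨_, c49⟩, ⟨_, c50⟩, ⟨_, c51⟩, ⟨_, c52⟩, ⟨_, c53⟩, ⟨_, c54⟩, ⟨_, c55⟩, ⟨_, c56⟩, ⟨_, c57⟩, ⟨_, c58⟩, ⟨_, c59⟩, ⟨_, c60⟩, ⟨_, c61⟩, ⟨_, c62⟩, ⟨_, c63⟩, ⟨_, c64⟩, ⟨_, c65⟩, ⟨_, c66⟩, ⟨_,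 c67⟩, ⟨_, c68⟩, ⟨_, c69⟩, ⟨_, c70⟩, ⟨_, c71⟩, ⟨_, c72⟩, ⟨_, c73⟩, ⟨_, c74⟩, ⟨_, c75⟩, ⟨_, c76⟩, ⟨_, c77⟩, ⟨_, c78⟩, ⟨_, c79⟩, ⟨_, c80⟩, ⟨_, c81⟩, ⟨_, c82⟩, ⟨_, c83⟩, ⟨_, c84⟩, ⟨_, c85⟩, ⟨_, c86⟩, ⟨_, c87⟩, ⟨_, c88⟩, ⟨_, c89⟩, ⟨_, c90⟩, ⟨_, c91⟩, ⟨_, c92⟩, ⟨_, c93⟩, ⟨_, c94⟩, ⟨_, c95⟩, ⟨_, c96⟩, ⟨_, c97⟩, ⟨_, c98⟩, ⟨_, c99⟩]

theorem main : ∃ m : ℕ, ∀ x < 60000, Cvd m x := by
  obtain ⟨m, hm⟩ := crt
  refine ⟨m, fun x hx => ?_⟩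
  obtain ⟨W, hW⟩ := all_chk (x / 600) (by omega)
  unfold chk at hW
  have h1 := allB_sound hW (x % 600) (Nat.mod_lt _ (by norm_num))
  have h2 : Nat.add (Nat.mul 600 (x / 600)) (x % 600) = x := Nat.div_add_mod x 600
  rw [h2] at h1
  exact ok_sound hm h1

end Pool.Agent.V11299.Cov
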